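import Pool.Agent.H369.SM.Stm

/-!
# SM7: the expansion at infinity as a ring homomorphism
-/

set_option autoImplicit false

namespace Pool.Agent.H331.SM

open Pool.Agent.H369.SM TensorProduct
open Pool.Agent.TH549.CK hiding MM Bd MB RK cinf oh Bd_iff_cinf cinf_oh cinf_injective exists_chi

section
variable {F 𝕂 P : Type} [Field F] [Field 𝕂] [Algebra F 𝕂]

theorem coeff_cinf (C : Crv F 𝕂 P) {m : ℕ} (N : Nodes P m) (f : PowerSeries 𝕂) (k : ℤ) (j : ℕ) :
    PowerSeries.coeff j (cinf C N f k) = (C.E N.o (PowerSeries.coeff j f)).coeff k := by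
  unfold cinf
  rw [PowerSeries.coeff_mk]

theorem cinf_mul {C : Crv F 𝕂 P} {m : ℕ} {N : Nodes P m} {n n' : ℕ} {f h : PowerSeries 𝕂}
    (hf : Bd C N n f) (hh : Bd C N n' h) (k : ℤ) :
    cinf C N (f * h) k =
      ∑ i ∈ Finset.Icc (-(n : ℤ)) (k + n'), cinf C N f i * cinf C N h (k - i) := by
  ext j
  rw [coeff_cinf, PowerSeries.coeff_mul, map_sum, HahnSeries.coeff_sum, map_sum]
  simp only [PowerSeries.coeff_mul, coeff_cinf]
  rw [Finset.sum_comm]
  apply Finset.sum_congr rfl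
  intro p _
  rw [map_mul]
  exact P5.coeff_mul_bd (fun k hk => hf p.1 k hk) (fun k hk => hh p.2 k hk) k

theorem cinf_injective {C : Crv F 𝕂 P} {m : ℕ} {N : Nodes P m} {f : PowerSeries 𝕂}
    (hf : ∀ k, cinf C N f k = 0) : f = 0 := by
  ext1 j
  rw [map_zero]
  apply (C.E N.o).injective
  rw [map_zero]
  ext k
  have h1 := congrArg (PowerSeries.coeff j) (hf k)
  rw [coeff_cinf, map_zero] at h1
  rw [h1]
  rfl

theorem Bd_iff_cinf {C : Crv F 𝕂 P} {m : ℕ} {N : Nodes P m} {n : ℕ} {f : PowerSeries 𝕂} :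
    Bd C N n f ↔ ∀ k : ℤ, k < -(n : ℤ) → cinf C N f k = 0 := by
  constructor
  · intro h k hk
    ext j
    rw [coeff_cinf, h j k hk, map_zero]
  · intro h j k hk
    have h1 := congrArg (PowerSeries.coeff j) (h k hk)
    rw [coeff_cinf, map_zero] at h1
    exact h1

theorem exists_chi (H : S_oh) (C : Crv F 𝕂 P) {m : ℕ} (N : Nodes P m) (K : Type) [Field K]
    [Algebra (PowerSeries F) K] :
    ∃ χ : MB C N →+* LaurentSeries K, ∀ (f : MB C N) (k : ℤ),
      (χ f).coeff k = algebraMap (PowerSeries F) K (cinf C N f k) := by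
  have hbd : ∀ f : MB C N, BddBelow (Function.support fun k : ℤ =>
      algebraMap (PowerSeries F) K (cinf C N f k)) := by
    intro f
    obtain ⟨n, hn⟩ := f.2.2
    refine ⟨-(n : ℤ), fun k hk => ?_⟩
    by_contra h
    apply hk
    simp only
    rw [Bd_iff_cinf.1 hn k (not_le.1 h), map_zero]
  set χ : MB C N → LaurentSeries K := fun f => HahnSeries.ofSuppBddBelow _ (hbd f) with hχ
  have hc : ∀ (f : MB C N) (k : ℤ), (χ f).coeff k =
      algebraMap (PowerSeries F) K (cinf C N f k) := by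
    intro f k
    simp only [hχ]
    rw [HahnSeries.coeff_ofSuppBddBelow]
  refine ⟨{ toFun := χ, map_one' := ?_, map_mul' := ?_, map_zero' := ?_, map_add' := ?_ }, hc⟩
  · ext k
    rw [hc, HahnSeries.coeff_one]
    have h1 := (H F 𝕂 P C m N (1 : PowerSeries F)).2.2.2.2 k
    rw [map_one] at h1
    have h2 : ((1 : MB C N) : PowerSeries 𝕂) = 1 := rfl
    rw [h2, h1]
    split_ifs
    · rw [map_one]
    · rw [map_zero]
  · intro f h
    obtain ⟨n, hn⟩ := f.2.2
    obtain ⟨n', hm⟩ := h.2.2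
    ext k
    have h1 : ∀ j < -(n : ℤ), (χ f).coeff j = 0 := by
      intro j hj
      rw [hc, Bd_iff_cinf.1 hn j hj, map_zero]
    have h2 : ∀ j < -(n' : ℤ), (χ h).coeff j = 0 := by
      intro j hj
      rw [hc, Bd_iff_cinf.1 hm j hj, map_zero]
    rw [P5.coeff_mul_bd h1 h2, hc]
    have h3 : ((f * h : MB C N) : PowerSeries 𝕂) = f * h := rfl
    rw [h3, cinf_mul hn hm, map_sum]
    apply Finset.sum_congr rfl
    intro i _
    rw [map_mul, hc, hc]
  · ext k
    rw [hc]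
    have h2 : ((0 : MB C N) : PowerSeries 𝕂) = 0 := rfl
    have h1 : cinf C N (0 : PowerSeries 𝕂) k = 0 := by
      ext j
      rw [coeff_cinf, map_zero, map_zero, map_zero]
      rfl
    rw [h2, h1, map_zero]
    rfl
  · intro f h
    ext k
    rw [HahnSeries.coeff_add, hc, hc, hc, ← map_add]
    congr 1
    ext j
    have h3 : ((f + h : MB C N) : PowerSeries 𝕂) = f + h := rfl
    rw [map_add, coeff_cinf, coeff_cinf, coeff_cinf, h3, map_add, map_add,
      HahnSeries.coeff_add]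

end

/-- **SM7** -/
theorem chi (H : S_oh) : S_chi := by
  intro F 𝕂 P _ _ _ C m N K _ _ _
  have hoh : ∀ o : PowerSeries F, oh F 𝕂 o ∈ MB C N := fun o =>
    ⟨(H F 𝕂 P C m N o).1, 0, (H F 𝕂 P C m N o).2.1⟩
  have hcoh : ∀ (o : PowerSeries F) (k : ℤ), cinf C N (oh F 𝕂 o) k =
      if k = 0 then o else 0 := fun o k => (H F 𝕂 P C m N o).2.2.2.2 k
  obtain ⟨χ, hχ⟩ := exists_chi H C N K
  have hmem : ∀ f : MB C N, χ f ∈ RK K C N := fun f =>
    Algebra.subset_adjoin ⟨f, f.2, fun k => hχ f k⟩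
  set χ' : MB C N →+* RK K C N := χ.codRestrict (RK K C N) hmem with hχ'
  have hc : ∀ f : MB C N, ((χ' f : RK K C N) : LaurentSeries K) = χ f :=
    fun f => rfl
  have h1 : ∀ (f : MB C N) (k : ℤ),
      ((χ' f : RK K C N) : LaurentSeries K).coeff k =
      algebraMap (PowerSeries F) K (cinf C N f k) := fun f k => by rw [hc, hχ]
  have h3 : ∀ (o : PowerSeries F) (ho : oh F 𝕂 o ∈ MB C N),
      χ' ⟨oh F 𝕂 o, ho⟩ =
      algebraMap K (RK K C N) (algebraMap (PowerSeries F) K o) := by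
    intro o ho
    apply Subtype.ext
    ext k
    rw [h1, P6.algebraMap_RK_coeff]
    simp only [hcoh]
    split_ifs <;> simp
  refine ⟨χ', h1, ?_, h3, ?_⟩
  · rw [injective_iff_map_eq_zero]
    intro f hf
    apply Subtype.ext
    apply cinf_injective (C := C) (N := N)
    intro k
    have h4 := h1 f k
    rw [hf] at h4
    have h5 : algebraMap (PowerSeries F) K (cinf C N (f : PowerSeries 𝕂) k) = 0 := by
      rw [← h4]; simp
    rwa [FaithfulSMul.algebraMap_eq_zero_iff] at h5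
  · rintro ⟨z, hz⟩
    have hX : ∀ n : ℕ, algebraMap K (RK K C N)
        (algebraMap (PowerSeries F) K (PowerSeries.X ^ n)) =
        χ' ⟨oh F 𝕂 (PowerSeries.X ^ n), hoh _⟩ := fun n => (h3 _ _).symm
    unfold RK at hz
    induction hz using Algebra.adjoin_induction with
    | mem x hx =>
      obtain ⟨f, hf, hk⟩ := hx
      refine ⟨0, ⟨f, hf⟩, ?_⟩
      rw [pow_zero, map_one, map_one, one_mul]
      apply Subtype.ext
      ext k
      rw [h1]
      exact hk k
    | algebraMap r =>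
      obtain ⟨n, o, ho⟩ := P6.exists_X_pow_mul (F := F) K r
      refine ⟨n, ⟨oh F 𝕂 o, hoh o⟩, ?_⟩
      rw [h3, ← ho, map_mul]
      rfl
    | add x y hx hy hx' hy' =>
      obtain ⟨n, f, hf⟩ := hx'
      obtain ⟨n', f', hf'⟩ := hy'
      refine ⟨n + n', ⟨oh F 𝕂 (PowerSeries.X ^ n'), hoh _⟩ * f +
        ⟨oh F 𝕂 (PowerSeries.X ^ n), hoh _⟩ * f', ?_⟩
      rw [map_add, map_mul, map_mul, ← hX, ← hX, ← hf, ← hf', pow_add, map_mul, map_mul]
      have : (⟨x + y, add_mem hx hy⟩ : RK K C N) =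
        (⟨x, hx⟩ : RK K C N) + (⟨y, hy⟩ : RK K C N) := rfl
      change _ * (⟨x + y, add_mem hx hy⟩ : RK K C N) = _
      rw [this]
      ring
    | mul x y hx hy hx' hy' =>
      obtain ⟨n, f, hf⟩ := hx'
      obtain ⟨n', f', hf'⟩ := hy'
      refine ⟨n + n', f * f', ?_⟩
      rw [map_mul, ← hf, ← hf', pow_add, map_mul, map_mul]
      have : (⟨x * y, mul_mem hx hy⟩ : RK K C N) =
        (⟨x, hx⟩ : RK K C N) * (⟨y, hy⟩ : RK K C N) := rfl
      change _ * (⟨x * y, mul_mem hx hy⟩ : RK K C N) = _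
      rw [this]
      ring

end Pool.Agent.H331.SM
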